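import Pool.Agent.W175.GF.Stm

set_option autoImplicit false

namespace Pool.Agent.W505.GF

open Complex Pool.Agent.W175.GF Set Filter Topology

theorem cls : S_CLS := by
  intro r f hr ⟨hf, D, C, hC⟩
  set g : ℂ → ℂ := fun s => s ^ D * f s with hg
  have hUr : Metric.ball (0 : ℂ) r \ {0} = U r := by
    ext s
    simp only [Set.mem_sdiff, Metric.mem_ball, dist_zero_right, mem_singleton_iff]
    constructor
    · rintro ⟨h1, h2⟩
      exact ⟨norm_pos_iff.mpr h2, h1⟩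
    · rintro ⟨h1, h2⟩
      exact ⟨h2, norm_pos_iff.mp h1⟩
  have hgd : DifferentiableOn ℂ g (Metric.ball (0 : ℂ) r \ {0}) := by
    rw [hUr]
    exact (differentiableOn_id.pow D).mul hf
  have hgb : BddAbove (norm ∘ g '' (Metric.ball (0 : ℂ) r \ {0})) := by
    refine ⟨C, ?_⟩
    rintro _ ⟨s, hs, rfl⟩
    rw [hUr] at hs
    have h1 := hC s hs
    have h2 : 0 < ‖s‖ := hs.1
    simp only [Function.comp_apply, hg, norm_mul, norm_pow]
    calc ‖s‖ ^ D * ‖f s‖ ≤ ‖s‖ ^ D * (C * ‖s‖⁻¹ ^ D) :=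
          mul_le_mul_of_nonneg_left h1 (by positivity)
      _ = C := by
          rw [inv_pow]
          field_simp
  have hball : Metric.ball (0 : ℂ) r ∈ 𝓝 (0 : ℂ) := Metric.ball_mem_nhds 0 hr
  have hG := differentiableOn_update_limUnder_of_bddAbove hball hgd hgb
  set G := Function.update g 0 (limUnder (𝓝[≠] 0) g) with hGdef
  have hGan : AnalyticAt ℂ G 0 := hG.analyticAt hball
  have hGg : ∀ s, s ≠ 0 → G s = g s := fun s hs => Function.update_of_ne hs _ _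
  by_cases hz : ∀ᶠ z in 𝓝 (0 : ℂ), G z = 0
  · left
    obtain ⟨δ, hδ, h⟩ := Metric.eventually_nhds_iff_ball.mp hz
    refine ⟨min δ r, 0, lt_min hδ hr, min_le_right _ _, ?_⟩
    rintro s ⟨h1, h2⟩
    have hs : s ≠ 0 := norm_pos_iff.mp h1
    have h3 := h s (by rw [Metric.mem_ball, dist_zero_right]; exact lt_of_lt_of_le h2 (min_le_left _ _))
    rw [hGg s hs] at h3
    have h4 : f s = 0 := by
      rcases mul_eq_zero.mp h3 with h5 | h5
      · exact absurd h5 (pow_ne_zero D hs)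
      · exact h5
    rw [h4, norm_zero]
  · obtain ⟨n, g1, hg1, hg10, hg1e⟩ := hGan.exists_eventuallyEq_pow_smul_nonzero_iff.mpr hz
    simp only [sub_zero, smul_eq_mul] at hg1e
    -- Lipschitz at 0
    obtain ⟨K, hK⟩ := (hg1.differentiableAt.isBigO_sub).bound
    have hev : ∀ᶠ z in 𝓝 (0 : ℂ), G z = z ^ n * g1 z ∧ ‖g1 z - g1 0‖ ≤ K * ‖z‖ ∧ ‖z‖ < 1 := by
      have h1 : ∀ᶠ z in 𝓝 (0 : ℂ), ‖z‖ < 1 := by
        have := Metric.ball_mem_nhds (0 : ℂ) one_pos
        filter_upwards [this] with z hz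
        simpa using hz
      filter_upwards [hg1e, hK, h1] with z a1 a2 a3
      refine ⟨a1, ?_, a3⟩
      simpa using a2
    obtain ⟨δ, hδ, h⟩ := Metric.eventually_nhds_iff_ball.mp hev
    have key : ∀ s ∈ U (min δ r), f s = s⁻¹ ^ D * (s ^ n * g1 s) ∧ ‖g1 s - g1 0‖ ≤ K * ‖s‖ ∧
        ‖s‖ < 1 := by
      rintro s ⟨h1, h2⟩
      have hs : s ≠ 0 := norm_pos_iff.mp h1
      have h3 := h s (by
        rw [Metric.mem_ball, dist_zero_right]; exact lt_of_lt_of_le h2 (min_le_left _ _))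
      refine ⟨?_, h3.2⟩
      rw [← h3.1, hGg s hs, hg]
      simp only
      rw [inv_pow, ← mul_assoc, inv_mul_cancel₀ (pow_ne_zero _ hs), one_mul]
    rcases le_or_gt D n with hDn | hDn
    · left
      refine ⟨min δ r, ‖g1 0‖ + |K|, lt_min hδ hr, min_le_right _ _, ?_⟩
      intro s hs
      obtain ⟨h1, h2, h3⟩ := key s hs
      have hs0 : s ≠ 0 := norm_pos_iff.mp hs.1
      have h4 : f s = s ^ (n - D) * g1 s := by
        rw [h1, inv_pow]
        rw [show s ^ n = s ^ D * s ^ (n - D) by rw [← pow_add]; congr 1; omega]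
        field_simp
      rw [h4, norm_mul, norm_pow]
      have h5 : ‖g1 s‖ ≤ ‖g1 0‖ + |K| := by
        have h6 : K * ‖s‖ ≤ |K| * 1 :=
          mul_le_mul (le_abs_self K) h3.le (norm_nonneg _) (abs_nonneg _)
        have h7 : ‖g1 s‖ ≤ ‖g1 0‖ + ‖g1 s - g1 0‖ := by
          calc ‖g1 s‖ = ‖g1 0 + (g1 s - g1 0)‖ := by congr 1; ring
            _ ≤ _ := norm_add_le _ _
        linarith
      calc ‖s‖ ^ (n - D) * ‖g1 s‖ ≤ 1 * ‖g1 s‖ :=
            mul_le_mul_of_nonneg_right (pow_le_one₀ (norm_nonneg _) h3.le) (norm_nonneg _)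
        _ = ‖g1 s‖ := one_mul _
        _ ≤ _ := h5
    · right
      refine ⟨min δ r, D - n, g1 0, K, lt_min hδ hr, min_le_right _ _, by omega, hg10, ?_⟩
      intro s hs
      obtain ⟨h1, h2, h3⟩ := key s hs
      have hs0 : s ≠ 0 := norm_pos_iff.mp hs.1
      have h4 : f s - g1 0 * s⁻¹ ^ (D - n) = s⁻¹ ^ (D - n) * (g1 s - g1 0) := by
        have h5 : s⁻¹ ^ D * s ^ n = s⁻¹ ^ (D - n) := by
          rw [show s⁻¹ ^ D = s⁻¹ ^ (D - n) * s⁻¹ ^ n by rw [← pow_add]; congr 1; omega, mul_assoc,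
            ← mul_pow, inv_mul_cancel₀ hs0, one_pow, mul_one]
        rw [h1, ← mul_assoc, h5]
        ring
      rw [h4, norm_mul, norm_pow, norm_inv]
      have hpos : 0 < ‖s‖ := hs.1
      calc ‖s‖⁻¹ ^ (D - n) * ‖g1 s - g1 0‖ ≤ ‖s‖⁻¹ ^ (D - n) * (K * ‖s‖) :=
            mul_le_mul_of_nonneg_left h2 (by positivity)
        _ = K * ‖s‖⁻¹ ^ (D - n - 1) := by
            rw [show ‖s‖⁻¹ ^ (D - n) = ‖s‖⁻¹ ^ (D - n - 1) * ‖s‖⁻¹ by
              rw [← pow_succ]; congr 1; omega]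
            field_simp

end Pool.Agent.W505.GF
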