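import Pool.Agent.W175.GF.Stm

set_option autoImplicit false

namespace Pool.Agent.W505.GF

open Complex Pool.Agent.W175.GF Set Filter Topology

theorem U_open (r : ℝ) : IsOpen (U r) :=
  (isOpen_lt continuous_const continuous_norm).inter (isOpen_lt continuous_norm continuous_const)

theorem U_image {r : ℝ} (hr : 0 < r) : U r = exp '' {w : ℂ | w.re < Real.log r} := by
  ext s
  constructor
  · rintro ⟨h1, h2⟩
    have hs : s ≠ 0 := norm_pos_iff.mp h1
    refine ⟨log s, ?_, exp_log hs⟩
    change (log s).re < Real.log r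
    rw [log_re]
    exact Real.log_lt_log h1 h2
  · rintro ⟨w, hw, rfl⟩
    refine ⟨norm_pos_iff.mpr (exp_ne_zero w), ?_⟩
    rw [norm_exp, ← Real.exp_log hr]
    exact Real.exp_lt_exp.mpr hw

theorem U_preconnected {r : ℝ} (hr : 0 < r) : IsPreconnected (U r) := by
  rw [U_image hr]
  exact (convex_halfSpace_re_lt _).isPreconnected.image _ continuous_exp.continuousOn

theorem U_nonempty {r : ℝ} (hr : 0 < r) : (U r).Nonempty := by
  refine ⟨((r / 2 : ℝ) : ℂ), ?_, ?_⟩ <;> rw [norm_real, Real.norm_eq_abs, abs_of_pos (by positivity)]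
  · positivity
  · linarith

/-- the zero set of a nonzero holomorphic function on a connected open set is countable -/
theorem countable_zeros {Ω : Set ℂ} {g : ℂ → ℂ} (hΩ : IsOpen Ω) (hc : IsPreconnected Ω)
    (hg : DifferentiableOn ℂ g Ω) (hne : ¬ ∀ s ∈ Ω, g s = 0) : {s | s ∈ Ω ∧ g s = 0}.Countable := by
  have hd : DiscreteTopology {s | s ∈ Ω ∧ g s = 0} := by
    rw [discreteTopology_subtype_iff]
    rintro z ⟨hz, hz0⟩
    have han : AnalyticAt ℂ g z := hg.analyticAt (hΩ.mem_nhds hz)
    rcases han.eventually_eq_zero_or_eventually_ne_zero with h | h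
    · exfalso
      apply hne
      exact (hg.analyticOnNhd hΩ).eqOn_zero_of_preconnected_of_eventuallyEq_zero hc hz h
    · rw [inf_principal_eq_bot]
      filter_upwards [h] with w hw hw'
      exact hw hw'.2
  exact countable_coe_iff.mp (countable_of_Lindelof_of_discrete)

theorem good : S_GOOD := by
  intro J _ r β h j hr hh hH
  classical
  by_contra hno
  push Not at hno
  have hsub : U r ⊆ ⋃ (i : J) (p : ℚ) (q : ℚ),
      {s | s ∈ U r ∧ (i ≠ j ∧ β i = p * β j) ∧ h i s - (p * h j s + q) = 0} := by
    intro s hs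
    obtain ⟨i, hij, p, q, h1, h2⟩ := hno s hs
    simp only [mem_iUnion]
    refine ⟨i, p, q, hs, ⟨hij, h1⟩, ?_⟩
    rw [h2, sub_self]
  have hcount : (⋃ (i : J) (p : ℚ) (q : ℚ),
      {s | s ∈ U r ∧ (i ≠ j ∧ β i = p * β j) ∧ h i s - (p * h j s + q) = 0}).Countable := by
    have := Finite.to_countable (α := J)
    refine countable_iUnion fun i => countable_iUnion fun p => countable_iUnion fun q => ?_
    by_cases hij : i ≠ j ∧ β i = p * β j
    · refine Countable.mono (s₂ := {s | s ∈ U r ∧ h i s - (p * h j s + q) = 0})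
        (fun s hs => ⟨hs.1, hs.2.2⟩)
        (countable_zeros (g := fun s => h i s - (p * h j s + q)) (U_open r) (U_preconnected hr)
        ?_ ?_)
      · exact (hh i).sub (((hh j).const_mul _).add_const _)
      · intro hz
        exact hH i hij.1 p q ⟨hij.2, fun s hs => sub_eq_zero.mp (hz s hs)⟩
    · convert countable_empty
      ext s
      simp only [mem_empty_iff_false, iff_false]
      exact fun hs => hij hs.2.1
  have hU : (U r).Countable := hcount.mono hsub
  have h1 : (U r).Nonempty := U_nonempty hr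
  exact ((U_open r).measure_pos MeasureTheory.volume h1).ne' (hU.measure_zero _)

end Pool.Agent.W505.GF
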