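import Pool.Agent.W175.GF.Stm

set_option autoImplicit false

namespace Pool.Agent.W505.GF

open Complex Pool.Agent.W175.GF Set Filter Topology

/-- position of the half plane -/
theorem hp_arg {ψ ρ : ℝ} (hψ : |ψ| < Real.pi / 2) (hρ : 0 ≤ ρ) {τ : ℂ} (hτ : τ ∈ Hp ψ ρ) :
    ρ < ‖τ‖ ∧ |arg τ - ψ| < Real.pi / 2 := by
  have h1 : (τ * exp (-(ψ * I))).re = ‖τ‖ * Real.cos (arg τ - ψ) := by
    conv_lhs => rw [← norm_mul_exp_arg_mul_I τ]
    rw [mul_assoc, ← exp_add]
    have : (arg τ : ℂ) * I + -(ψ * I) = ((arg τ - ψ : ℝ) : ℂ) * I := by push_cast; ring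
    rw [this, re_ofReal_mul, exp_ofReal_mul_I_re]
  have h2 : ρ < ‖τ‖ * Real.cos (arg τ - ψ) := by rw [← h1]; exact hτ
  have h3 : ‖τ‖ * Real.cos (arg τ - ψ) ≤ ‖τ‖ :=
    mul_le_of_le_one_right (norm_nonneg _) (Real.cos_le_one _)
  refine ⟨lt_of_lt_of_le h2 h3, ?_⟩
  by_contra h4
  push Not at h4
  have h5 : |arg τ - ψ| ≤ Real.pi + Real.pi / 2 := by
    have := abs_sub (arg τ) ψ
    have := abs_arg_le_pi τ
    linarith
  have h6 : Real.cos |arg τ - ψ| ≤ 0 := Real.cos_nonpos_of_pi_div_two_le_of_le h4 h5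
  rw [Real.cos_abs] at h6
  have h7 : ‖τ‖ * Real.cos (arg τ - ψ) ≤ 0 := mul_nonpos_of_nonneg_of_nonpos (norm_nonneg _) h6
  linarith

/-- the error term -/
noncomputable def GG (θ t : ℝ) : ℝ := t ^ θ * (Real.log t + 1) + Real.log t + 1

theorem GG_bound {θ : ℝ} (hθ0 : 0 ≤ θ) (hθ : θ < 1) {A ε : ℝ} (hA : 0 ≤ A) (hε : 0 < ε) :
    ∃ C : ℝ, 0 ≤ C ∧ ∀ t : ℝ, 1 ≤ t → A * GG θ t ≤ ε * t + C := by
  have h1 : (fun t : ℝ => A * GG θ t) =o[atTop] (fun t : ℝ => t) := by
    apply Asymptotics.IsLittleO.const_mul_left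
    unfold GG
    refine Asymptotics.IsLittleO.add (Asymptotics.IsLittleO.add ?_ ?_) ?_
    · have h2 : (fun t : ℝ => Real.log t + 1) =o[atTop] fun t : ℝ => t ^ (1 - θ) :=
        (isLittleO_log_rpow_atTop (by linarith)).add
          (Asymptotics.isLittleO_const_left.mpr (Or.inr
            (tendsto_norm_atTop_atTop.comp (tendsto_rpow_atTop (by linarith)))))
      have h3 : (fun t : ℝ => t ^ θ * (Real.log t + 1)) =o[atTop] fun t : ℝ => t ^ θ * t ^ (1 - θ) :=
        (Asymptotics.isBigO_refl _ _).mul_isLittleO h2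
      refine h3.congr' EventuallyEq.rfl ?_
      filter_upwards [eventually_gt_atTop 0] with t ht
      rw [← Real.rpow_add ht]
      norm_num
    · exact Real.isLittleO_log_id_atTop
    · exact Asymptotics.isLittleO_const_id_atTop 1
  have h2 := h1.def hε
  obtain ⟨T, hT⟩ := eventually_atTop.mp h2
  set T' := max T 1
  have hmono : ∀ t : ℝ, 1 ≤ t → t ≤ T' → GG θ t ≤ GG θ T' := by
    intro t ht htT
    unfold GG
    have hl0 : 0 ≤ Real.log t := Real.log_nonneg ht
    have hl : Real.log t ≤ Real.log T' := Real.log_le_log (by linarith) htT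
    have hp : t ^ θ ≤ T' ^ θ := Real.rpow_le_rpow (by linarith) htT hθ0
    have hp0 : 0 ≤ t ^ θ := Real.rpow_nonneg (by linarith) θ
    have := mul_le_mul hp (show Real.log t + 1 ≤ Real.log T' + 1 by linarith) (by linarith)
      (Real.rpow_nonneg (by positivity) θ)
    linarith
  have hG0 : 0 ≤ GG θ T' := by
    have h1T : 1 ≤ T' := le_max_right _ _
    have := Real.log_nonneg h1T
    unfold GG
    positivity
  refine ⟨A * GG θ T', mul_nonneg hA hG0, fun t ht => ?_⟩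
  rcases le_total T' t with h | h
  · have h3 := hT t ((le_max_left _ _).trans h)
    rw [Real.norm_eq_abs, Real.norm_eq_abs, abs_of_pos (show 0 < t by linarith)] at h3
    have := le_abs_self (A * GG θ t)
    have := mul_nonneg hA hG0
    linarith
  · have h3 := mul_le_mul_of_nonneg_left (hmono t ht h) hA
    have : 0 ≤ ε * t := by positivity
    linarith

/-- the basic estimate -/
theorem basic (b : ℂ) (hb : b ≠ 0) (e0 θ K : ℝ) (he0 : 0 < e0) (he1 : e0 < Real.pi)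
    (hθ0 : 0 ≤ θ) (hθ : θ < 1) :
    ∃ R1 A : ℝ, 1 ≤ R1 ∧ 0 ≤ A ∧ ∀ τ η : ℂ, R1 ≤ ‖τ‖ → |arg b + arg τ| ≤ Real.pi - 2 * e0 →
      ‖η‖ ≤ K * ‖τ‖ ^ θ →
      2 ≤ ‖b * τ + η‖ ∧ |arg (b * τ + η)| ≤ Real.pi - e0 ∧
      ‖(b * τ + η) * log (b * τ + η) - (b * τ + η) - mn b τ‖ + Real.log ‖b * τ + η‖ + ‖η‖ ≤
        A * GG θ ‖τ‖ := by
  have hB : 0 < ‖b‖ := norm_pos_iff.mpr hb
  set δ0 : ℝ := min (1 / 2) (e0 / 2) with hδ0
  have hδ0p : 0 < δ0 := lt_min (by norm_num) (by positivity)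
  have hev : ∀ᶠ t : ℝ in atTop, |K| * t ^ θ ≤ δ0 * ‖b‖ * t ∧ 4 ≤ ‖b‖ * t := by
    have h1 : (fun t : ℝ => |K| * t ^ θ) =o[atTop] fun t : ℝ => t := by
      apply Asymptotics.IsLittleO.const_mul_left
      have h2 : (fun _ : ℝ => (1 : ℝ)) =o[atTop] fun t : ℝ => t ^ (1 - θ) :=
        Asymptotics.isLittleO_const_left.mpr (Or.inr
            (tendsto_norm_atTop_atTop.comp (tendsto_rpow_atTop (by linarith))))
      have h3 : (fun t : ℝ => t ^ θ * 1) =o[atTop] fun t : ℝ => t ^ θ * t ^ (1 - θ) :=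
        (Asymptotics.isBigO_refl _ _).mul_isLittleO h2
      refine h3.congr' (Eventually.of_forall fun t => mul_one _) ?_
      filter_upwards [eventually_gt_atTop 0] with t ht
      rw [← Real.rpow_add ht]
      norm_num
    have h2 := h1.def (show 0 < δ0 * ‖b‖ by positivity)
    have h3 : ∀ᶠ t : ℝ in atTop, 4 ≤ ‖b‖ * t :=
      (tendsto_id.const_mul_atTop hB).eventually_ge_atTop 4
    filter_upwards [h2, h3, eventually_gt_atTop 0] with t a1 a2 a3
    refine ⟨?_, a2⟩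
    rw [Real.norm_eq_abs, Real.norm_eq_abs, abs_of_pos a3] at a1
    exact (le_abs_self _).trans a1
  obtain ⟨R, hR⟩ := eventually_atTop.mp hev
  refine ⟨max R 1, |K| * (|Real.log ‖b‖| + 9 + 1) + |Real.log (2 * ‖b‖)| + 1, le_max_right _ _,
    by positivity, ?_⟩
  intro τ η hτ harg hη
  set t := ‖τ‖ with ht
  obtain ⟨hR1, hR2⟩ := hR t ((le_max_left _ _).trans hτ)
  have ht1 : 1 ≤ t := (le_max_right _ _).trans hτ
  have ht0 : 0 < t := by linarith
  have hτ0 : τ ≠ 0 := norm_pos_iff.mp (by rw [← ht]; exact ht0)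
  have hbτ : b * τ ≠ 0 := mul_ne_zero hb hτ0
  have hbτn : ‖b * τ‖ = ‖b‖ * t := norm_mul _ _
  have hbτp : 0 < ‖b * τ‖ := norm_pos_iff.mpr hbτ
  have htθ : 0 ≤ t ^ θ := Real.rpow_nonneg ht0.le θ
  have hηK : ‖η‖ ≤ |K| * t ^ θ := hη.trans (mul_le_mul_of_nonneg_right (le_abs_self K) htθ)
  set x : ℂ := η / (b * τ) with hx
  have hw : b * τ + η = b * τ * (1 + x) := by
    rw [hx]; field_simp
  have hxn : ‖x‖ ≤ δ0 := by
    rw [hx, norm_div, div_le_iff₀ hbτp, hbτn]
    calc ‖η‖ ≤ |K| * t ^ θ := hηK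
      _ ≤ δ0 * ‖b‖ * t := hR1
      _ = δ0 * (‖b‖ * t) := by ring
  have hx2 : ‖x‖ ≤ 1 / 2 := hxn.trans (min_le_left _ _)
  have hlog1 : ‖log (1 + x)‖ ≤ 3 / 2 * ‖x‖ := norm_log_one_add_half_le_self hx2
  have h1x : 1 / 2 ≤ ‖1 + x‖ := by
    have := norm_sub_norm_le (1 : ℂ) (-x)
    rw [norm_one, norm_neg, sub_neg_eq_add] at this
    linarith
  have h1x' : ‖1 + x‖ ≤ 3 / 2 := by
    have := norm_add_le (1 : ℂ) x
    rw [norm_one] at this
    linarith
  have h1x0 : (1 : ℂ) + x ≠ 0 := norm_pos_iff.mp (by linarith)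
  have harg1 : |arg (1 + x)| ≤ e0 := by
    have h1 : |arg (1 + x)| ≤ ‖log (1 + x)‖ := by
      rw [← log_im]
      exact abs_im_le_norm _
    have h2 : ‖x‖ ≤ e0 / 2 := hxn.trans (min_le_right _ _)
    linarith
  have hπ := Real.pi_pos
  have hin1 : arg b + arg τ ∈ Set.Ioc (-Real.pi) Real.pi := by
    have := abs_le.mp harg
    exact ⟨by linarith, by linarith⟩
  have hargbτ : arg (b * τ) = arg b + arg τ := (arg_mul_eq_add_arg_iff hb hτ0).mpr hin1
  have hlogbτ : log (b * τ) = log b + log τ := (log_mul_eq_add_log_iff hb hτ0).mpr hin1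
  have hin2 : arg (b * τ) + arg (1 + x) ∈ Set.Ioc (-Real.pi) Real.pi := by
    rw [hargbτ]
    have h1 := abs_le.mp harg
    have h2 := abs_le.mp harg1
    exact ⟨by linarith, by linarith⟩
  have hargw : arg (b * τ + η) = arg (b * τ) + arg (1 + x) := by
    rw [hw]
    exact (arg_mul_eq_add_arg_iff hbτ h1x0).mpr hin2
  have hlogw : log (b * τ + η) = log (b * τ) + log (1 + x) := by
    rw [hw]
    exact (log_mul_eq_add_log_iff hbτ h1x0).mpr hin2
  have hwn : ‖b * τ + η‖ = ‖b‖ * t * ‖1 + x‖ := by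
    rw [hw, norm_mul, hbτn]
  have hw2 : 2 ≤ ‖b * τ + η‖ := by
    rw [hwn]
    nlinarith
  have hw3 : ‖b * τ + η‖ ≤ 2 * ‖b‖ * t := by
    rw [hwn]
    have : 0 < ‖b‖ * t := by positivity
    nlinarith
  refine ⟨hw2, ?_, ?_⟩
  · rw [hargw, hargbτ]
    have h1 := abs_le.mp harg
    have h2 := abs_le.mp harg1
    rw [abs_le]
    constructor <;> linarith
  · have hlogt : 0 ≤ Real.log t := Real.log_nonneg ht1
    have hΔ : (b * τ + η) * log (b * τ + η) - (b * τ + η) - mn b τ =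
        η * log (b * τ) + (b * τ + η) * log (1 + x) - η := by
      rw [hlogw, mn]
      have : log τ + log b = log (b * τ) := by rw [hlogbτ]; ring
      rw [this]
      ring
    have hlogn : ‖log (b * τ)‖ ≤ |Real.log ‖b‖| + Real.log t + 4 := by
      have h1 : ‖log (b * τ)‖ ≤ |(log (b * τ)).re| + |(log (b * τ)).im| := norm_le_abs_re_add_abs_im _
      rw [log_re, log_im, hbτn, Real.log_mul hB.ne' ht0.ne'] at h1
      have h2 := abs_add_le (Real.log ‖b‖) (Real.log t)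
      rw [abs_of_nonneg hlogt] at h2
      have h3 : |arg (b * τ)| ≤ Real.pi := abs_arg_le_pi _
      have h4 := Real.pi_lt_four
      linarith
    have hwl : ‖(b * τ + η) * log (1 + x)‖ ≤ 3 * ‖η‖ := by
      rw [norm_mul, hwn]
      have h1 : ‖b‖ * t * ‖x‖ = ‖η‖ := by
        rw [← hbτn, ← norm_mul, hx, mul_div_cancel₀ _ hbτ]
      calc ‖b‖ * t * ‖1 + x‖ * ‖log (1 + x)‖ ≤ ‖b‖ * t * (3 / 2) * (3 / 2 * ‖x‖) := by
            apply mul_le_mul _ hlog1 (norm_nonneg _) (by positivity)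
            exact mul_le_mul_of_nonneg_left h1x' (by positivity)
        _ = 9 / 4 * (‖b‖ * t * ‖x‖) := by ring
        _ = 9 / 4 * ‖η‖ := by rw [h1]
        _ ≤ 3 * ‖η‖ := by nlinarith [norm_nonneg η]
    have hΔn : ‖(b * τ + η) * log (b * τ + η) - (b * τ + η) - mn b τ‖ ≤
        ‖η‖ * (|Real.log ‖b‖| + Real.log t + 8) := by
      rw [hΔ]
      have h1 := norm_sub_le (η * log (b * τ) + (b * τ + η) * log (1 + x)) η
      have h2 := norm_add_le (η * log (b * τ)) ((b * τ + η) * log (1 + x))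
      rw [norm_mul η] at h2
      have h3 := mul_le_mul_of_nonneg_left hlogn (norm_nonneg η)
      linarith
    have hlogw2 : Real.log ‖b * τ + η‖ ≤ |Real.log (2 * ‖b‖)| + Real.log t := by
      have h1 := Real.log_le_log (by linarith) hw3
      rw [Real.log_mul (by positivity) ht0.ne'] at h1
      have := le_abs_self (Real.log (2 * ‖b‖))
      linarith
    have hb0 : 0 ≤ |Real.log ‖b‖| := abs_nonneg _
    have hb1 : 0 ≤ |Real.log (2 * ‖b‖)| := abs_nonneg _
    have e1 : ‖η‖ * (|Real.log ‖b‖| + Real.log t + 8) + ‖η‖ ≤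
        |K| * (|Real.log ‖b‖| + 9 + 1) * (t ^ θ * (Real.log t + 1)) := by
      calc ‖η‖ * (|Real.log ‖b‖| + Real.log t + 8) + ‖η‖
          = ‖η‖ * (|Real.log ‖b‖| + Real.log t + 9) := by ring
        _ ≤ (|K| * t ^ θ) * (|Real.log ‖b‖| + Real.log t + 9) :=
            mul_le_mul_of_nonneg_right hηK (by positivity)
        _ ≤ (|K| * t ^ θ) * ((|Real.log ‖b‖| + 9 + 1) * (Real.log t + 1)) := by
            apply mul_le_mul_of_nonneg_left _ (by positivity)
            nlinarith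
        _ = _ := by ring
    have e2 : |Real.log (2 * ‖b‖)| + Real.log t ≤
        (|Real.log (2 * ‖b‖)| + 1) * (Real.log t + 1) := by nlinarith
    have e3 : 0 ≤ |K| * (|Real.log ‖b‖| + 9 + 1) := by positivity
    have e4 : 0 ≤ t ^ θ * (Real.log t + 1) := by positivity
    unfold GG
    nlinarith [mul_nonneg e3 (show 0 ≤ Real.log t + 1 by linarith),
      mul_nonneg (show 0 ≤ |Real.log (2 * ‖b‖)| + 1 by linarith) e4]

theorem norm_inv_gamma_le (w : ℂ) : ‖(Gamma w)⁻¹‖ ≤ Real.exp (-Real.log ‖Gamma w‖) := by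
  by_cases h : Gamma w = 0
  · rw [h, inv_zero, norm_zero]
    exact (Real.exp_pos _).le
  · rw [Real.exp_neg, Real.exp_log (norm_pos_iff.mpr h), norm_inv]

theorem norm_gamma_le (w : ℂ) : ‖Gamma w‖ ≤ Real.exp (Real.log ‖Gamma w‖) := by
  by_cases h : Gamma w = 0
  · rw [h, norm_zero]
    exact (Real.exp_pos _).le
  · rw [Real.exp_log (norm_pos_iff.mpr h)]

theorem reg (hS : S_STIR) : S_REG := by
  intro b ψ θ K hb _hargb hψ hbψ hθ0 hθ ε hε
  have hπ := Real.pi_pos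
  set e0 : ℝ := (Real.pi / 2 - |arg b + ψ|) / 2 with he0
  have he0p : 0 < e0 := by rw [he0]; linarith
  have he0π : e0 < Real.pi := by
    rw [he0]
    have := abs_nonneg (arg b + ψ)
    linarith
  obtain ⟨C1, hC1⟩ := hS e0 he0p he0π
  obtain ⟨R1, A, hR1, hA, hbas⟩ := basic b hb e0 θ K he0p he0π hθ0 hθ
  obtain ⟨C2, hC20, hC2⟩ := GG_bound hθ0 hθ (A := (1 + |C1|) * A) (by positivity) hε
  -- the compact part
  have hcont : Continuous fun s : ℂ => (Gamma s)⁻¹ := differentiable_one_div_Gamma.continuous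
  obtain ⟨M1, hM1⟩ := (isCompact_closedBall (0 : ℂ) (‖b‖ * R1 + |K| * R1 ^ θ)).exists_bound_of_continuousOn
    hcont.continuousOn
  set M2 : ℝ := Real.exp (‖b‖ * R1 * (Real.log R1 + Real.pi + ‖log b‖ + 1)) with hM2
  refine ⟨max (|M1| * M2) (Real.exp C2), ?_⟩
  intro τ hτ η hη
  obtain ⟨hτ1, hτarg⟩ := hp_arg hψ zero_le_one hτ
  have hexp1 : 1 ≤ Real.exp (ε * ‖τ‖) := by
    rw [← Real.exp_zero]
    exact Real.exp_le_exp.mpr (by positivity)
  rcases le_or_gt R1 ‖τ‖ with h | h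
  · have harg : |arg b + arg τ| ≤ Real.pi - 2 * e0 := by
      have h1 := abs_add_le (arg b + ψ) (arg τ - ψ)
      have h2 : arg b + ψ + (arg τ - ψ) = arg b + arg τ := by ring
      rw [h2] at h1
      have : Real.pi - 2 * e0 = |arg b + ψ| + Real.pi / 2 := by rw [he0]; ring
      linarith
    obtain ⟨hw2, hwarg, hwb⟩ := hbas τ η h harg hη
    set w := b * τ + η with hw
    have hst := hC1 w hw2 hwarg
    have hlw : 0 ≤ Real.log ‖w‖ := Real.log_nonneg (by linarith)
    have hst2 : -Real.log ‖Gamma w‖ ≤ -(w * log w - w).re + |C1| * Real.log ‖w‖ := by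
      have := (abs_le.mp hst).1
      have := mul_le_mul_of_nonneg_right (le_abs_self C1) hlw
      linarith
    have hre : -(w * log w - w).re + (mn b τ).re ≤ ‖w * log w - w - mn b τ‖ := by
      have := neg_abs_le (w * log w - w - mn b τ).re
      have h2 := abs_re_le_norm (w * log w - w - mn b τ)
      have h3 : (w * log w - w - mn b τ).re = (w * log w - w).re - (mn b τ).re := sub_re _ _
      rw [h3] at this h2
      linarith
    have hfin : -Real.log ‖Gamma w‖ + (mn b τ).re ≤ ε * ‖τ‖ + C2 := by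
      have h1 := hC2 ‖τ‖ hτ1.le
      have hn0 := norm_nonneg (w * log w - w - mn b τ)
      have hη0 := norm_nonneg η
      have h2 : ‖w * log w - w - mn b τ‖ + |C1| * Real.log ‖w‖ ≤
          (1 + |C1|) * (A * GG θ ‖τ‖) := by
        have h3 : ‖w * log w - w - mn b τ‖ + |C1| * Real.log ‖w‖ ≤
            (1 + |C1|) * (‖w * log w - w - mn b τ‖ + Real.log ‖w‖ + ‖η‖) := by
          have : 0 ≤ |C1| := abs_nonneg _
          nlinarith [mul_nonneg this hn0, mul_nonneg this hη0]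
        exact h3.trans (mul_le_mul_of_nonneg_left hwb (by positivity))
      rw [mul_assoc] at h1
      linarith
    calc ‖(Gamma w)⁻¹ * exp (mn b τ)‖ = ‖(Gamma w)⁻¹‖ * Real.exp (mn b τ).re := by
          rw [norm_mul, norm_exp]
      _ ≤ Real.exp (-Real.log ‖Gamma w‖) * Real.exp (mn b τ).re :=
          mul_le_mul_of_nonneg_right (norm_inv_gamma_le w) (Real.exp_pos _).le
      _ = Real.exp (-Real.log ‖Gamma w‖ + (mn b τ).re) := (Real.exp_add _ _).symm
      _ ≤ Real.exp (C2 + ε * ‖τ‖) := Real.exp_le_exp.mpr (by linarith)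
      _ = Real.exp C2 * Real.exp (ε * ‖τ‖) := Real.exp_add _ _
      _ ≤ _ := mul_le_mul_of_nonneg_right (le_max_right _ _) (Real.exp_pos _).le
  · have hτ0 : 0 < ‖τ‖ := by linarith
    have htθ : ‖τ‖ ^ θ ≤ R1 ^ θ := Real.rpow_le_rpow hτ0.le h.le hθ0
    have hwball : b * τ + η ∈ Metric.closedBall (0 : ℂ) (‖b‖ * R1 + |K| * R1 ^ θ) := by
      rw [Metric.mem_closedBall, dist_zero_right]
      have h1 := norm_add_le (b * τ) η
      rw [norm_mul] at h1
      have h2 : ‖b‖ * ‖τ‖ ≤ ‖b‖ * R1 := mul_le_mul_of_nonneg_left h.le (norm_nonneg _)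
      have h3 : K * ‖τ‖ ^ θ ≤ |K| * R1 ^ θ :=
        (mul_le_mul_of_nonneg_right (le_abs_self K) (Real.rpow_nonneg hτ0.le θ)).trans
          (mul_le_mul_of_nonneg_left htθ (abs_nonneg _))
      linarith
    have h1 : ‖(Gamma (b * τ + η))⁻¹‖ ≤ |M1| := (hM1 _ hwball).trans (le_abs_self _)
    have h2 : ‖exp (mn b τ)‖ ≤ M2 := by
      rw [norm_exp, hM2]
      apply Real.exp_le_exp.mpr
      refine (le_abs_self _).trans ((abs_re_le_norm _).trans ?_)
      unfold mn
      rw [norm_mul, norm_mul]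
      have hl0 : 0 ≤ Real.log ‖τ‖ := Real.log_nonneg hτ1.le
      have hl1 : Real.log ‖τ‖ ≤ Real.log R1 := Real.log_le_log hτ0 h.le
      have h3 : ‖log τ + log b - 1‖ ≤ Real.log R1 + Real.pi + ‖log b‖ + 1 := by
        have a1 := norm_sub_le (log τ + log b) 1
        have a2 := norm_add_le (log τ) (log b)
        have a3 : ‖log τ‖ ≤ Real.log R1 + Real.pi := by
          have := norm_le_abs_re_add_abs_im (log τ)
          rw [log_re, log_im, abs_of_nonneg hl0] at this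
          have := abs_arg_le_pi τ
          linarith
        rw [norm_one] at a1
        linarith
      exact mul_le_mul (mul_le_mul_of_nonneg_left h.le (norm_nonneg _)) h3 (norm_nonneg _)
        (by positivity)
    rw [norm_mul]
    calc ‖(Gamma (b * τ + η))⁻¹‖ * ‖exp (mn b τ)‖ ≤ |M1| * M2 :=
          mul_le_mul h1 h2 (norm_nonneg _) (abs_nonneg _)
      _ ≤ max (|M1| * M2) (Real.exp C2) := le_max_left _ _
      _ = max (|M1| * M2) (Real.exp C2) * 1 := (mul_one _).symm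
      _ ≤ _ := mul_le_mul_of_nonneg_left hexp1 (le_max_of_le_right (Real.exp_pos _).le)

end Pool.Agent.W505.GF
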