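import Pool.Agent.W505.GF.Reg

set_option autoImplicit false

namespace Pool.Agent.W505.GF

open Complex Pool.Agent.W175.GF Set Filter Topology

theorem mn_sum {β : ℝ} (hβ : 0 < β) (τ η : ℂ) :
    mn (-(β * I)) τ + -(I * Real.pi * (β * I * τ + η)) + mn (β * I) τ = -(I * Real.pi * η) := by
  have h1 : log (-(β * I)) = Real.log β - Real.pi / 2 * I := by
    have : -((β : ℂ) * I) = β * (-I) := by ring
    rw [this, log_ofReal_mul hβ (neg_ne_zero.mpr I_ne_zero), log_neg_I]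
    try ring
  have h2 : log ((β : ℂ) * I) = Real.log β + Real.pi / 2 * I := by
    rw [log_ofReal_mul hβ I_ne_zero, log_I]
  unfold mn
  rw [h1, h2]
  ring_nf
  try rw [I_sq]
  try ring

theorem regj (hS : S_STIR) : S_REGJ := by
  intro β θ K ψ₁ ψ₂ hβ hψ1 hψ12 hψ2 hθ0 hθ
  have hπ := Real.pi_pos
  have hπ4 := Real.pi_lt_four
  have hπ3 := Real.pi_gt_three
  set b : ℂ := -(β * I) with hb
  have hβ0 : (β : ℂ) ≠ 0 := ofReal_ne_zero.mpr hβ.ne'
  have hb0 : b ≠ 0 := neg_ne_zero.mpr (mul_ne_zero hβ0 I_ne_zero)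
  have hargb : arg b = -(Real.pi / 2) := by
    have : b = β * (-I) := by rw [hb]; ring
    rw [this, arg_real_mul _ hβ, arg_neg_I]
  have he0 : 0 < ψ₁ / 2 := by positivity
  have he1 : ψ₁ / 2 < Real.pi := by linarith
  obtain ⟨C1, hC1⟩ := hS (ψ₁ / 2) he0 he1
  obtain ⟨R1, A, hR1, hA, hbas⟩ := basic b hb0 (ψ₁ / 2) θ K he0 he1 hθ0 hθ
  have hmain : ∀ ψ ∈ Icc ψ₁ ψ₂, ∀ τ ∈ Hp ψ R1, ∀ η : ℂ, ‖η‖ ≤ K * ‖τ‖ ^ θ →
      1 ≤ ‖τ‖ ∧ 2 ≤ ‖b * τ + -η‖ ∧ |arg (b * τ + -η)| ≤ Real.pi - ψ₁ / 2 ∧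
      ‖(b * τ + -η) * log (b * τ + -η) - (b * τ + -η) - mn b τ‖ + Real.log ‖b * τ + -η‖ + ‖η‖ ≤
        A * GG θ ‖τ‖ := by
    intro ψ hψ τ hτ η hη
    have hψa : |ψ| < Real.pi / 2 := by
      rw [abs_of_pos (lt_of_lt_of_le hψ1 hψ.1)]
      exact lt_of_le_of_lt hψ.2 hψ2
    obtain ⟨hτ1, hτarg⟩ := hp_arg hψa (by linarith) hτ
    have harg : |arg b + arg τ| ≤ Real.pi - 2 * (ψ₁ / 2) := by
      rw [hargb]
      have h1 := abs_lt.mp hτarg
      have h2 := hψ.1
      have h3 := hψ.2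
      rw [abs_le]
      constructor <;> linarith
    have := hbas τ (-η) hτ1.le harg (by rw [norm_neg]; exact hη)
    rw [norm_neg η] at this
    exact ⟨by linarith, this⟩
  refine ⟨R1, hR1, ?_, ?_⟩
  · intro ψ hψ τ hτ η hη n hn
    obtain ⟨-, h2, h3, -⟩ := hmain ψ hψ τ hτ η hη
    have hv : b * τ + -η = -((n : ℕ) : ℂ) := by
      rw [← hn, hb]; ring
    rw [hv] at h2 h3
    rw [norm_neg, norm_natCast] at h2
    have h4 : arg (-((n : ℕ) : ℂ)) = Real.pi := by
      have : (-((n : ℕ) : ℂ)) = ((-(n : ℝ) : ℝ) : ℂ) := by push_cast; ring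
      rw [this, arg_ofReal_of_neg (by linarith)]
    rw [h4, abs_of_pos hπ] at h3
    linarith
  · intro ε hε
    obtain ⟨C2, hC20, hC2⟩ := GG_bound hθ0 hθ (A := (4 + |C1|) * A) (by positivity) hε
    refine ⟨Real.exp C2, ?_⟩
    intro ψ hψ τ hτ η hη
    obtain ⟨h1, h2, h3, h4⟩ := hmain ψ hψ τ hτ η hη
    set v := b * τ + -η with hv
    have hw : β * I * τ + η = -v := by rw [hv, hb]; ring
    have hst := hC1 v h2 h3
    have hlv : 0 ≤ Real.log ‖v‖ := Real.log_nonneg (by linarith)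
    have hst2 : Real.log ‖Gamma v‖ ≤ (v * log v - v).re + |C1| * Real.log ‖v‖ := by
      have := (abs_le.mp hst).2
      have := mul_le_mul_of_nonneg_right (le_abs_self C1) hlv
      linarith
    have hsum := mn_sum hβ τ η
    rw [← hb, hw] at hsum
    have hre : (v * log v - v).re + (-(I * Real.pi * -v)).re + (mn (β * I) τ).re ≤
        ‖v * log v - v - mn b τ‖ + 4 * ‖η‖ := by
      have e1 : (v * log v - v).re + (-(I * Real.pi * -v)).re + (mn (β * I) τ).re =
          ((v * log v - v - mn b τ) + -(I * Real.pi * η)).re := by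
        rw [← hsum, ← add_re, ← add_re]
        congr 1
        ring
      rw [e1]
      refine (le_abs_self _).trans ((abs_re_le_norm _).trans ((norm_add_le _ _).trans ?_))
      have e2 : ‖-(I * Real.pi * η)‖ = Real.pi * ‖η‖ := by
        rw [norm_neg, norm_mul, norm_mul, norm_I, one_mul, norm_real, Real.norm_eq_abs,
          abs_of_pos hπ]
      rw [e2]
      have := mul_le_mul_of_nonneg_right hπ4.le (norm_nonneg η)
      linarith
    have hfin : Real.log ‖v‖ + Real.log ‖Gamma v‖ + (-(I * Real.pi * -v)).re +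
        (mn (β * I) τ).re ≤ C2 + ε * ‖τ‖ := by
      have g1 := hC2 ‖τ‖ h1
      have hn0 := norm_nonneg (v * log v - v - mn b τ)
      have hη0 := norm_nonneg η
      have g2 : ‖v * log v - v - mn b τ‖ + 4 * ‖η‖ + (1 + |C1|) * Real.log ‖v‖ ≤
          (4 + |C1|) * (‖v * log v - v - mn b τ‖ + Real.log ‖v‖ + ‖η‖) := by
        have : 0 ≤ |C1| := abs_nonneg _
        nlinarith [mul_nonneg this hn0, mul_nonneg this hη0]
      have g3 := mul_le_mul_of_nonneg_left h4 (show 0 ≤ 4 + |C1| by positivity)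
      rw [mul_assoc] at g1
      linarith
    rw [hw]
    unfold FJ
    rw [neg_neg]
    have hv0 : 0 < ‖v‖ := by linarith
    have hden : ‖(2 * Real.pi * I : ℂ)‖ = 2 * Real.pi := by
      rw [norm_mul, norm_mul, norm_I, norm_real, Real.norm_eq_abs, abs_of_pos hπ]
      simp
    rw [norm_mul, norm_div, hden, norm_mul, norm_mul, norm_neg, norm_exp, norm_exp]
    calc ‖v‖ * ‖Gamma v‖ * Real.exp (-(I * Real.pi * -v)).re / (2 * Real.pi) *
          Real.exp (mn (β * I) τ).re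
        ≤ ‖v‖ * ‖Gamma v‖ * Real.exp (-(I * Real.pi * -v)).re *
          Real.exp (mn (β * I) τ).re := by
          apply mul_le_mul_of_nonneg_right _ (Real.exp_pos _).le
          apply div_le_self (by positivity)
          linarith
      _ ≤ Real.exp (Real.log ‖v‖) * Real.exp (Real.log ‖Gamma v‖) *
          Real.exp (-(I * Real.pi * -v)).re * Real.exp (mn (β * I) τ).re := by
          rw [Real.exp_log hv0]
          have := norm_gamma_le v
          gcongr
      _ = Real.exp (Real.log ‖v‖ + Real.log ‖Gamma v‖ + (-(I * Real.pi * -v)).re +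
          (mn (β * I) τ).re) := by
          rw [Real.exp_add, Real.exp_add, Real.exp_add]
      _ ≤ Real.exp (C2 + ε * ‖τ‖) := Real.exp_le_exp.mpr hfin
      _ = Real.exp C2 * Real.exp (ε * ‖τ‖) := Real.exp_add _ _

end Pool.Agent.W505.GF
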